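import Pool.Agent.W_448w7_h94.WiG

/-!
Unnatural elements below the cells of level 14: components with one element on level 7, strips
`La7` (MP_448cb3_co, S7, `j = 14`, window 7).
-/

namespace Pool.Agent.GaussPoset.W7

set_option linter.unusedSectionVars false

open Polynomial Finset Fi Cl Dd Wd

universe u

variable {P : Type u} [Fintype P] [PartialOrder P] [DecidableEq P] {r n0 : ℕ}
  {N : Tops P → Finset P} {b : Tops P → ℕ} {θ : Tops P → P → ℕ}

lemma topOf_top' (t : Tops P) : topOf (t : P) = t := by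
  have h1 := le_topOf (t : P)
  refine Subtype.ext ?_
  rcases eq_or_lt_of_le h1 with h2 | h2
  · exact h2.symm
  · have h3 := lev_strictAnti h2
    have h4 := t.2
    omega

/-- an end `(5;25)` and a fold end have two elements of level 7 above -/
lemma nab7_p5 {x : P} (h : Prof 7 x (gD p5)) : 2 ≤ nab 7 x := by
  have h1 := h 7 (by norm_num)
  have h2 : gD p5 7 = 1 := by decide
  rw [h2] at h1
  norm_num at h1
  omega

lemma WL.nab7_fold (W : WL r n0 N b θ) {x : P} (h : Fd 7 x) : 2 ≤ nab 7 x := by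
  have h1 := W.fold_prof h 7 (by norm_num)
  have h2 : pF 7 7 = 3 := by decide
  rw [h2] at h1
  norm_num at h1
  omega

lemma LaD.cn7 {t : Tops P} {lo hi : ℕ → ℕ} {e : ℕ → ℕ → P} {A : Finset P} {θ : P → ℕ}
    (L : LaD n0 N θ t lo hi e A) : cn 7 (t : P) = 2 := by
  have h0 : cn 7 (t : P) = hi 7 + 1 - lo 7 := by
    classical
    unfold cn
    exact L.comp.card_row (by omega)
  rw [h0]
  have := L.word.row
  omega

/-- **An element of `r2` below a component with one element on level 7 has level at least 16.** -/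
theorem WL.no_r14 (W : WL r n0 N b θ) (J : JH P) {x y : P} (hy : y ∈ r2 (2 * 7) N) (hyx : y ⋖ x)
    (h7 : cn 7 (topOf x : P) = 1) (hx : x ∉ r2 (2 * 7) N) : 15 ≤ lev x := by
  classical
  have H := W.gt.H
  have HN := W.natSys
  by_contra hcon
  have hyU : y ∈ unnat N := (mem_sdiff.mp hy).1
  have hly := W.lt_lev hyU
  have h1 := (H.covBy_iff.mp hyx).2
  have hl : lev y = 2 * 7 + 1 := by omega
  have hlx : lev x = 2 * 7 := by omega
  have hn := W.nab_le_cn (v := x) (by omega) 7
  have kJ : ∀ x', y ⋖ x' → topOf x ≠ topOf x' → False := by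
    intro x' hx' ht
    rcases J.hJ y x x' hl hyx hx' ht with ⟨g1, g2⟩ | ⟨g1, g2⟩
    · have := W.nab7_fold g1
      omega
    · have := nab7_p5 g2
      omega
  by_cases hall : ∀ x', y ⋖ x' → topOf x = topOf x'
  · rcases W.rows J hy hl with ⟨t, lo, hi, e, A, L, hm⟩ | ⟨x1, x2, g1, g2, ht, g3, g4⟩ | ⟨g1, g2⟩
    · obtain ⟨a, ha, hbit, hax⟩ := (hm.2 x).mp hyx
      have h2 := Sg.La7_le L.word L.comp ha
      rw [hax] at h2
      have hxU : x ∉ unnat N := W.low hlx.le
      have h3 : topOf x = t := by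
        have h4 := HN.cp x (t : P) h2.1 hxU
        rw [topOf_top'] at h4
        exact h4
      rw [h3, L.cn7] at h7
      omega
    · exact ht ((hall x1 g3).symm.trans (hall x2 g4))
    · have g3 := g2 7 (by norm_num) (by norm_num)
      have g4 : nab 7 y ≤ cn 7 (topOf x : P) := by
        unfold nab cn
        refine Finset.card_le_card fun w hw => ?_
        rw [mem_filter] at hw ⊢
        refine ⟨hw.1, ?_⟩
        have hlw : lev w = 7 := (mem_filter.mp hw.1).2
        have hyw : y < w := lt_of_le_of_ne hw.2 (by rintro rfl; omega)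
        obtain ⟨u, hu, huw⟩ := Hul.exists_cov hyw
        have hlu := (H.covBy_iff.mp hu).2
        rw [hall u hu, HN.cp u w huw (W.low (by omega))]
        exact le_topOf w
      omega
  · push Not at hall
    obtain ⟨x', hx', ht⟩ := hall
    exact kJ x' hx' ht

/-! ### the strips `La7` -/

/-- no twins below a strip -/
lemma WL.no_tw (W : WL r n0 N b θ) {t : Tops P} {lo hi : ℕ → ℕ} {e : ℕ → ℕ → P} {A : Finset P}
    (L : LaD n0 N (θ t) t lo hi e A) {x : P} (hx : x ∈ twY (2 * 7) N) (ht : topOf x = t) :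
    False := by
  have T := W.twSys
  have h1 := mem_twY.mp hx
  have h3 := twT_spec h1.2.2
  have hl : lev (twT N x) = 15 := by rw [T.lev hx]; exact h1.2.1
  have h4 : topOf (twT N x) = t := (T.cp x hx).trans ht
  have h5 : Lx n0 N θ (twT N x) :=
    ⟨W.natSys.mem_iff.mpr ⟨h3.1, rfl⟩, lo, hi, e, A, by rw [h4]; exact L⟩
  exact h5.tw W hl h1.1 h3.2

/-- the elements off `r2` of a strip -/
lemma WL.la_off (W : WL r n0 N b θ) {t : Tops P} {lo hi : ℕ → ℕ} {e : ℕ → ℕ → P} {A : Finset P}
    (L : LaD n0 N (θ t) t lo hi e A) {x : P} (hx : x ∉ r2 (2 * 7) N) (ht : topOf x = t) :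
    x ∈ N t := by
  refine W.natSys.mem_iff.mpr ⟨fun h => ?_, ht⟩
  by_cases hY : x ∈ twY (2 * 7) N
  · exact W.no_tw L hY ht
  · exact hx (mem_sdiff.mpr ⟨h, hY⟩)

/-- the end `(5;25)` of the strip is the first cell -/
lemma WL.la_p5 (W : WL r n0 N b θ) {t : Tops P} {lo hi : ℕ → ℕ} {e : ℕ → ℕ → P} {A : Finset P}
    (L : LaD n0 N (θ t) t lo hi e A) {x : P} (hl : lev x = 14) (hx : x ≤ (t : P))
    (h : Prof 7 x (gD p5)) : x = Sg.ce e 25 := by
  have H := W.gt.H
  have hC := Sg.La7_cod L.word L.comp W.gt.H W.gt.good t.2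
  obtain ⟨a, ha, hax⟩ := Sg.La7_surj L.word L.comp hx hl.le
  have h25 : 25 ≤ a := Sg.La7_lv14 a ha (by
    rw [← (Sg.La7_le L.word L.comp ha).2, hax]
    exact hl)
  by_cases e1 : a = 25
  · rw [← hax, e1]
  exfalso
  by_cases e2 : a = 29
  · subst e2
    obtain ⟨g1, g2⟩ := L.word.rows L.comp
    have hcv : ∀ a < 30, La7cv.getD a 0 < 2 ^ a := La7_us.cv
    have hn := strip_nab La7_strip L.comp W.gt.H W.gt.good t.2 le_rfl g1 g2 hcv
      Sg.La7_um (a := 29) (by decide +kernel) 8
    have c1 : ((range 30).filter (fun b =>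
      (La7um.getD 29 0).testBit b = true ∧ La7lv.getD b 0 = 8)).card = 1 := by decide +kernel
    have h2 := h 6 (by norm_num)
    have h3 : gD p5 6 = 1 := by decide
    rw [h3] at h2
    have h4 : nab 8 x = 1 := by
      rw [← hax]
      exact hn.trans c1
    norm_num at h2
    omega
  · have h2 := h 1 (by norm_num)
    have h3 : gD p5 1 = 0 := by decide
    have h4 := Wd.uc_card_nab H (x := x) (by omega)
    rw [hl] at h4
    rw [h3] at h2
    norm_num at h2 h4
    obtain ⟨k, hk, k', hk', hkk, b1, b2⟩ := Sg.La7_two a ha h25 e1 e2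
    have h5 : (Win.uc x).card = 1 := by omega
    obtain ⟨w, hw⟩ := Finset.card_eq_one.mp h5
    rw [← hax] at hw
    have c1 : Sg.ce e k ∈ Win.uc (Sg.ce e a) :=
      Win.mem_uc.mpr ((hC.cov a ha _).mpr ⟨k, hk, b1, rfl⟩)
    have c2 : Sg.ce e k' ∈ Win.uc (Sg.ce e a) :=
      Win.mem_uc.mpr ((hC.cov a ha _).mpr ⟨k', hk', b2, rfl⟩)
    rw [hw, mem_singleton] at c1 c2
    exact hkk (hC.inj k hk k' hk' (c1.trans c2.symm))

/-- the cell of level 14 above an element of `r2` is the first cell -/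
lemma WL.la_y0 (W : WL r n0 N b θ) (J : JH P) {t : Tops P} {lo hi : ℕ → ℕ} {e : ℕ → ℕ → P}
    {A : Finset P} (L : LaD n0 N (θ t) t lo hi e A) {x y : P} (hy : y ∈ r2 (2 * 7) N)
    (hyx : y ⋖ x) (hl : lev x = 14) (ht : topOf x = t) : x = Sg.ce e 25 := by
  have H := W.gt.H
  have hly : lev y = 15 := by
    have := (H.covBy_iff.mp hyx).2
    omega
  have hxt : x ≤ (t : P) := by rw [← ht]; exact le_topOf x
  by_cases hall : ∀ x', y ⋖ x' → x' ≤ (t : P)
  · rcases L.dat.full y hly hall with h | h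
    · exfalso
      refine mem_unnat.mp (mem_sdiff.mp hy).1 t ?_
      rw [L.nat]
      exact mem_union_right _ h
    · obtain ⟨a, ha, hbit, hax⟩ := (h.2 x).mp hyx
      have key : ∀ b < 30, Nat.testBit 33554432 b = true → b = 25 := by decide +kernel
      rw [← hax, key a ha hbit]
  · push Not at hall
    obtain ⟨x', hx', hnt⟩ := hall
    have ht' : topOf x ≠ topOf x' := by
      intro h
      rw [ht] at h
      refine hnt ?_
      rw [h]
      exact le_topOf x'
    rcases J.hJ y x x' hly hyx hx' ht' with ⟨g1, g2⟩ | ⟨g1, g2⟩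
    · exfalso
      have h1 := W.nab_le_cn (v := x) (by omega) 2
      have h2 := L.cn2
      have h3 := g1.2.2
      rw [ht] at h1
      omega
    · exact W.la_p5 L hl hxt g2

/-- the costs of the elements of level 15 -/
lemma La7_diff : ∀ m ∈ ms4, min 2 8 + ∑ b ∈ (range 30).filter
      (fun b => (orM (fun a => La7um.getD a 0) 30 m).testBit b = true),
        min 2 (La7lv.getD b 0 - 7) + 8 ≤ min 3 8 + ∑ b ∈ (range 30).filter
      (fun b => (orM (fun a => La7um.getD a 0) 30 m).testBit b = true),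
        min 3 (La7lv.getD b 0 - 7) := by decide +kernel

lemma WL.la_diff (W : WL r n0 N b θ) {t : Tops P} {lo hi : ℕ → ℕ} {e : ℕ → ℕ → P} {A : Finset P}
    (L : LaD n0 N (θ t) t lo hi e A) {x : P} (hx : x ∈ A) : ct 7 2 x + 8 ≤ ct 7 3 x := by
  obtain ⟨m, hm, hmk⟩ := L.dat.msk hx
  rw [Sg.La7_ct L.word L.comp W.gt t.2 hmk.1 hmk.2 2, Sg.La7_ct L.word L.comp W.gt t.2 hmk.1 hmk.2 3]
  exact La7_diff m hm

lemma La7_d25 : min 2 (La7lv.getD 25 0 - 7) + ∑ b ∈ (range 30).filter
      (fun b => (orM (fun a => La7um.getD a 0) 30 (La7cv.getD 25 0)).testBit b = true),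
        min 2 (La7lv.getD b 0 - 7) + 7 ≤ min 3 (La7lv.getD 25 0 - 7) + ∑ b ∈ (range 30).filter
      (fun b => (orM (fun a => La7um.getD a 0) 30 (La7cv.getD 25 0)).testBit b = true),
        min 3 (La7lv.getD b 0 - 7) := by decide +kernel

lemma WL.la_d25 (W : WL r n0 N b θ) {t : Tops P} {lo hi : ℕ → ℕ} {e : ℕ → ℕ → P} {A : Finset P}
    (L : LaD n0 N (θ t) t lo hi e A) : ct 7 2 (Sg.ce e 25) + 7 ≤ ct 7 3 (Sg.ce e 25) := by
  have hC := Sg.La7_cod L.word L.comp W.gt.H W.gt.good t.2
  have h : ∀ k, ct 7 k (Sg.ce e 25) = min k (La7lv.getD 25 0 - 7) + ∑ b ∈ (range 30).filter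
      (fun b => (orM (fun a => La7um.getD a 0) 30 (La7cv.getD 25 0)).testBit b = true),
        min k (La7lv.getD b 0 - 7) := by
    intro k
    rw [Sg.cod_ct hC La7_us.cv Sg.La7_um (fun y => hC.cov 25 (by norm_num) y) 7 k,
      hC.lev 25 (by norm_num)]
  rw [h, h]
  exact La7_d25

/-- the cost of a union, two elements are not above -/
lemma uni_costB {i : ℕ} {h : P → ℕ} {z y x : P} (hz : h z = 2) (hyx : y < x) (hzx : ¬ z ≤ x) :
    ct i 2 z + min 3 (lev y - i) + min 2 (lev x - i) + ct i 3 x ≤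
      ∑ w, max (ez i h z w) (ez i (fun _ => 3) y w) + ct i 2 x := by
  classical
  have h0 : min 3 (lev y - i) = ∑ w, (if w = y then min 3 (lev y - i) else 0) := by
    rw [Finset.sum_ite_eq' univ y, if_pos (mem_univ y)]
  have h1 : min 2 (lev x - i) = ∑ w, (if w = x then min 2 (lev x - i) else 0) := by
    rw [Finset.sum_ite_eq' univ x, if_pos (mem_univ x)]
  rw [h0, h1, ct_eq_sum, ct_eq_sum, ct_eq_sum, ← Finset.sum_add_distrib, ← Finset.sum_add_distrib,
    ← Finset.sum_add_distrib, ← Finset.sum_add_distrib]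
  refine Finset.sum_le_sum fun w _ => ?_
  have e1 : ez i h z w = if z ≤ w then min 2 (lev w - i) else 0 := by
    unfold ez
    rw [hz]
  have e2 : ez i (fun _ => 3) y w = if y ≤ w then min 3 (lev w - i) else 0 := by
    unfold ez
    rfl
  rw [e1, e2]
  by_cases hw : w = y
  · subst hw
    rw [if_neg (fun h => hzx (h.trans hyx.le)), if_pos rfl, if_neg hyx.ne,
      if_neg (not_le_of_gt hyx), if_neg (not_le_of_gt hyx), if_pos le_rfl]
    omega
  · by_cases hw2 : w = x
    · subst hw2
      rw [if_neg hzx, if_neg hw, if_pos rfl, if_pos le_rfl, if_pos le_rfl, if_pos hyx.le]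
      omega
    · rw [if_neg hw, if_neg hw2]
      by_cases hx : x ≤ w
      · rw [if_pos hx, if_pos hx, if_pos (hyx.le.trans hx)]
        by_cases hz' : z ≤ w
        · rw [if_pos hz']; omega
        · rw [if_neg hz']; omega
      · rw [if_neg hx, if_neg hx]
        omega

/-- **The union of the cone of an element below an anchor with the cone of another element below
the component.** -/
theorem WL.h3 (W : WL r n0 N b θ) (J : JH P) {c z x y : P} (hc : Ank n0 N θ c)
    (hz : h2 (2 * 7) N θ z = 2) (hzc : z ⋖ c) (hlz : lev z = 16)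
    (hzR : ∀ u, z ⋖ u → u ∉ r2 (2 * 7) N) (hy : y ∈ r2 (2 * 7) N) (hx : x ∉ r2 (2 * 7) N)
    (hxt : topOf x = topOf c) (hyx : y ⋖ x) (hne : y ≠ z) :
    ct 7 2 z + 11 ≤ ∑ w, max (ez 7 (h2 (2 * 7) N θ) z w) (ez 7 (fun _ => 3) y w) := by
  have H := W.gt.H
  obtain ⟨lo, hi, e, A, L, hcA, hcm⟩ := hc
  have hxN := W.la_off L hx hxt
  have hyU : y ∈ unnat N := (mem_sdiff.mp hy).1
  have hly := W.lt_lev hyU
  have h1 := (H.covBy_iff.mp hyx).2
  by_cases hlx : 15 ≤ lev x
  · obtain ⟨hxA, hl15⟩ := L.mem15 hxN hlx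
    have h2 := W.la_diff L hxA
    have h3 : ¬ z ≤ y := by
      intro h
      rcases eq_or_lt_of_le h with h | h
      · exact hne h.symm
      · have := lev_strictAnti h
        omega
    have h4 := uni_cost (i := 7) hz hyx.lt h3
    omega
  · have hl14 : lev x = 14 := by omega
    have hx25 := W.la_y0 J L hy hyx hl14 hxt
    have h2 := W.la_d25 L
    rw [← hx25] at h2
    have h3 : ¬ z ≤ x := by
      intro h
      have hzx : z < x := lt_of_le_of_ne h (by rintro rfl; omega)
      obtain ⟨u, hu, hux⟩ := Hul.exists_cov hzx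
      have hlu := (H.covBy_iff.mp hu).2
      have hux' : u < x := lt_of_le_of_ne hux (by rintro rfl; omega)
      have huR := hzR u hu
      have hut : topOf u = topOf c := by
        by_cases hY : u ∈ twY (2 * 7) N
        · have T := W.twSys
          have g1 : twT N u < x := (T.up u hY x).mpr hux'
          have g2 := W.natSys.cp _ x g1.le (T.nat u hY)
          rw [T.cp u hY] at g2
          exact g2.trans hxt
        · exact (W.natSys.cp u x hux (fun g => huR (mem_sdiff.mpr ⟨g, hY⟩))).trans hxt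
      obtain ⟨huA, -⟩ := L.mem15 (W.la_off L huR hut) (by omega)
      obtain ⟨m, hm, hmk⟩ := L.dat.msk huA
      obtain ⟨v, hv, hvx⟩ := Hul.exists_cov hux'
      have hlv := (H.covBy_iff.mp hv).2
      have hvx' : v = x := by
        by_contra hne'
        have := lev_strictAnti (lt_of_le_of_ne hvx hne')
        omega
      rw [hvx', hx25] at hv
      obtain ⟨a, ha, hbit, hae⟩ := (hmk.2 _).mp hv
      have hC := Sg.La7_cod L.word L.comp W.gt.H W.gt.good (topOf c).2
      have e3 : a = 25 := hC.inj a ha 25 (by norm_num) hae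
      have key : ∀ m ∈ ms4, Nat.testBit m 25 = false := by decide +kernel
      rw [e3, key m hm] at hbit
      exact absurd hbit (by simp)
    have h4 := uni_costB (i := 7) hz hyx.lt h3
    omega

end Pool.Agent.GaussPoset.W7
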